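import Mathlib
import Pool.Agent.H39.NonBorel

set_option autoImplicit false

namespace Pool.Agent.Results.MP_930073_lc.Counterexample

open MeasureTheory Set Pool.Agent.H39.NonBorel

/-- analytic quasi-order -/
def IsAQO {X : Type} [TopologicalSpace X] (S : X → X → Prop) : Prop :=
  (∀ x, S x x) ∧ (∀ x y z, S x y → S y z → S x z) ∧ AnalyticSet {p : X × X | S p.1 p.2}

/-- analytic equivalence relation -/
def IsAEq {X : Type} [TopologicalSpace X] (E : X → X → Prop) : Prop :=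
  Equivalence E ∧ AnalyticSet {p : X × X | E p.1 p.2}

/-- Borel reducibility `R ≤_B R'` -/
def Red {X Y : Type} [MeasurableSpace X] [MeasurableSpace Y] (R : X → X → Prop)
    (R' : Y → Y → Prop) : Prop :=
  ∃ f : X → Y, Measurable f ∧ ∀ x y, R x y ↔ R' (f x) (f y)

/-- invariant universality of the pair `(S, E)` -/
def InvUniv {X : Type} [MeasurableSpace X] (S E : X → X → Prop) : Prop :=
  ∀ (Y : Type) [TopologicalSpace Y] [PolishSpace Y] [MeasurableSpace Y] [BorelSpace Y]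
    (R : Y → Y → Prop), IsAQO R → ∃ B : Set X, MeasurableSet B ∧ (∀ x y, E x y → x ∈ B → y ∈ B) ∧
      Red (fun x y : B => S x y) R ∧ Red R fun x y : B => S x y

section an
variable {X Z : Type} [TopologicalSpace X] [PolishSpace X] [TopologicalSpace Z] [PolishSpace Z]

def An (P : X → Prop) : Prop := AnalyticSet {x | P x}

theorem An.all {P : ℕ → X → Prop} (h : ∀ n, An (P n)) : An fun x => ∀ n, P n x := by
  unfold An; rw [setOf_forall]; exact AnalyticSet.iInter h

omit [PolishSpace X] in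
theorem An.ex {P : ℕ → X → Prop} (h : ∀ n, An (P n)) : An fun x => ∃ n, P n x := by
  unfold An; rw [setOf_exists]; exact AnalyticSet.iUnion h

theorem An.and {P Q : X → Prop} (h : An P) (h' : An Q) : An fun x => P x ∧ Q x := by
  have := AnalyticSet.iInter (s := fun b : Bool => cond b {x | P x} {x | Q x})
    (by rintro (_ | _); exacts [h', h])
  rwa [← inter_eq_iInter] at this

omit [PolishSpace X] in
theorem An.or {P Q : X → Prop} (h : An P) (h' : An Q) : An fun x => P x ∨ Q x := by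
  have := AnalyticSet.iUnion (s := fun b : Bool => cond b {x | P x} {x | Q x})
    (by rintro (_ | _); exacts [h', h])
  rwa [← union_eq_iUnion] at this

theorem An.comp {P : Z → Prop} (h : An P) {f : X → Z} (hf : Continuous f) :
    An fun x => P (f x) := AnalyticSet.preimage h hf

theorem An.eq {f g : X → Z} (hf : Continuous f) (hg : Continuous g) : An fun x => f x = g x :=
  (isClosed_eq hf hg).analyticSet

omit [PolishSpace X] [PolishSpace Z] in
theorem An.proj {P : X → Z → Prop} (h : An fun p : X × Z => P p.1 p.2) : An fun x => ∃ z, P x z := by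
  have := AnalyticSet.image_of_continuous h continuous_fst
  unfold An
  convert this using 1
  ext x; simp

theorem An.const (p : Prop) : An fun _ : X => p := by
  by_cases h : p
  · simpa [An, h] using (isClosed_univ (X := X)).analyticSet
  · simpa [An, h] using analyticSet_empty

theorem univ_an (Z : Type) [TopologicalSpace Z] [PolishSpace Z] : ∃ U : (ℕ → Bool) → Z → Prop,
    (An fun p : (ℕ → Bool) × Z => U p.1 p.2) ∧ ∀ A : Z → Prop, An A → ∃ c, ∀ z, U c z ↔ A z := by
  classical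
  obtain ⟨b, hb⟩ := TopologicalSpace.exists_seq_basis (Z × (ℕ → ℕ))
  refine ⟨fun c z => ∃ w : ℕ → ℕ, ∀ n, c n = false ∨ (z, w) ∉ b n, ?_, fun A hA => ?_⟩
  · refine An.proj (P := fun (p : (ℕ → Bool) × Z) (w : ℕ → ℕ) => ∀ n, p.1 n = false ∨ (p.2, w) ∉ b n)
      (An.all fun n => An.or (An.eq (by fun_prop) continuous_const) ?_)
    exact (IsClosed.preimage (f := fun p : ((ℕ → Bool) × Z) × (ℕ → ℕ) => (p.1.2, p.2))
      (by fun_prop) (hb.isOpen (mem_range_self n)).isClosed_compl).analyticSet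
  · obtain ⟨K, h1, h2⟩ : ∃ K : Set (Z × (ℕ → ℕ)), IsClosed K ∧ ∀ z, A z ↔ ∃ w, (z, w) ∈ K := by
      rw [An, AnalyticSet] at hA
      rcases hA with h | ⟨f, hf, h⟩
      · exact ⟨∅, isClosed_empty, fun z => by simpa using Set.ext_iff.1 h z⟩
      · exact ⟨{p | f p.2 = p.1}, isClosed_eq (by fun_prop) continuous_fst,
          fun z => (Set.ext_iff.1 h z).symm⟩
    refine ⟨fun n => decide (Disjoint (b n) K), fun z => (exists_congr fun w => ?_).trans (h2 z).symm⟩
    refine ⟨fun h => by_contra fun hc => ?_, fun h n => ?_⟩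
    · obtain ⟨_, ⟨n, rfl⟩, a1, a2⟩ := hb.exists_subset_of_mem_open hc h1.isOpen_compl
      rcases h n with a | a
      · exact (by simpa using a : ¬Disjoint (b n) K) (subset_compl_iff_disjoint_right.1 a2)
      · exact a a1
    · by_cases a : Disjoint (b n) K
      · exact Or.inr fun h' => disjoint_left.1 a h' h
      · exact Or.inl (by simpa using a)

theorem rtg {α : Type} (r : α → α → Prop) (x y : α) : Relation.ReflTransGen r x y ↔
    ∃ n : ℕ, ∃ p : ℕ → α, p 0 = x ∧ p n = y ∧ ∀ i, n ≤ i ∨ r (p i) (p (i + 1)) := by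
  constructor
  · intro h
    induction h with
    | refl => exact ⟨0, fun _ => x, rfl, rfl, fun i => Or.inl i.zero_le⟩
    | @tail b c _ h ih =>
      obtain ⟨n, p, h1, h2, h3⟩ := ih
      refine ⟨n + 1, fun i => if i ≤ n then p i else c, by simpa, by simp, fun i => ?_⟩
      rcases lt_trichotomy i n with k | rfl | k
      · exact Or.inr (by simpa [k.le, Nat.succ_le_of_lt k] using (h3 i).resolve_left k.not_ge)
      · exact Or.inr (by simpa [h2])
      · exact Or.inl k
  · rintro ⟨n, p, rfl, rfl, h⟩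
    have : ∀ k ≤ n, Relation.ReflTransGen r (p 0) (p k) := fun k hk => by
      induction k with
      | zero => rfl
      | succ k ih => exact (ih (by omega)).tail ((h k).resolve_left (by omega))
    exact this n le_rfl

end an

abbrev T := List ℕ → Bool
abbrev Y := ℕ → T
abbrev C := ℕ → Bool

def G (y y' : Y) : Prop := (∀ n, y n ∈ IF ∨ ∃ m, y n = y' m) ∧ ∀ n, y' n ∈ IF ∨ ∃ m, y' n = y m

theorem G_eqv : Equivalence G := by
  have : ∀ a b c : Y, (∀ n, a n ∈ IF ∨ ∃ m, a n = b m) → (∀ n, b n ∈ IF ∨ ∃ m, b n = c m) →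
      ∀ n, a n ∈ IF ∨ ∃ m, a n = c m := fun a b c h h' n => by
    rcases h n with k | ⟨m, k⟩
    · exact Or.inl k
    · rw [k]; exact h' m
  exact ⟨fun y => ⟨fun n => Or.inr ⟨n, rfl⟩, fun n => Or.inr ⟨n, rfl⟩⟩, fun h => ⟨h.2, h.1⟩,
    fun h h' => ⟨this _ _ _ h.1 h'.1, this _ _ _ h'.2 h.2⟩⟩

theorem G_an : An fun p : Y × Y => G p.1 p.2 := by
  have a : An (· ∈ IF) := analyticSet_IF
  exact An.and (An.all fun n => An.or (a.comp (f := fun p : Y × Y => p.1 n) (by fun_prop))
      (An.ex fun m => An.eq (by fun_prop) (by fun_prop)))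
    (An.all fun n => An.or (a.comp (f := fun p : Y × Y => p.2 n) (by fun_prop))
      (An.ex fun m => An.eq (by fun_prop) (by fun_prop)))

theorem G_nb (y : Y) : ¬MeasurableSet {y' | G y y'} := fun h => by
  let f : T → Y := fun t n => Nat.casesOn n t y
  have hf : Measurable f := measurable_pi_lambda _ fun n => by
    cases n
    exacts [measurable_id, measurable_const]
  have h2 : f ⁻¹' {y' | G y y'} = IF ∪ range y := by
    ext t
    refine ⟨fun h => (h.2 0).imp id fun ⟨m, k⟩ => ⟨m, k.symm⟩,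
      fun h => ⟨fun n => Or.inr ⟨n + 1, rfl⟩, ?_⟩⟩
    rintro (_ | n)
    exacts [h.imp id fun ⟨m, k⟩ => ⟨m, k.symm⟩, Or.inr ⟨n, rfl⟩]
  have h3 := hf h
  rw [h2] at h3
  refine not_measurableSet_IF ?_
  have := (h3.diff (countable_range y).measurableSet).union
    ((countable_range y).mono (inter_subset_right (s := IF))).measurableSet
  rwa [union_diff_right, diff_union_inter] at this

theorem emb (Z : Type) [MeasurableSpace Z] [StandardBorelSpace Z] :
    ∃ e : Z → Y, MeasurableEmbedding e := by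
  have : ¬Countable Y := fun h => G_nb (fun _ _ => true) (to_countable _).measurableSet
  exact ⟨_, (PolishSpace.measurableEquivOfNotCountable not_countable this).measurableEmbedding.comp
    (measurableEmbedding_embeddingReal Z)⟩

instance : PolishSpace Y := inferInstance
instance : BorelSpace Y := inferInstance
instance : PolishSpace (Y × Y) := inferInstance
instance : BorelSpace (Y × Y) := inferInstance
instance : PolishSpace (C × Y × Y) := inferInstance
instance : BorelSpace (C × Y × Y) := Prod.borelSpace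
theorem pp {A B : Type} [TopologicalSpace A] [PolishSpace A] [TopologicalSpace B] [PolishSpace B] :
    PolishSpace (A × B) := inferInstance
instance : PolishSpace ((C × Y × Y) × C × Y × Y) := pp

theorem result : ∃ (X : Type) (_ : TopologicalSpace X) (_ : PolishSpace X) (_ : MeasurableSpace X)
    (_ : BorelSpace X) (S E F : X → X → Prop), IsAQO S ∧ IsAEq E ∧ IsAEq F ∧
    (∀ x y, E x y → S x y ∧ S y x) ∧ (∀ x y, F x y → S x y ∧ S y x) ∧
    InvUniv S F ∧ Red E F ∧ ¬InvUniv S E := by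
  obtain ⟨U, U1, U2⟩ := univ_an (Y × Y)
  let R : C → Y → Y → Prop := fun c => Relation.ReflTransGen fun x y => U c (x, y)
  have Ra : An fun p : C × Y × Y => R p.1 p.2.1 p.2.2 := by
    simp only [R, rtg]
    refine An.ex fun n => An.proj (P := fun (q : C × Y × Y) (p : ℕ → Y) =>
      p 0 = q.2.1 ∧ p n = q.2.2 ∧ ∀ i, n ≤ i ∨ U q.1 (p i, p (i + 1))) ?_
    refine (An.eq (by fun_prop) (by fun_prop)).and ((An.eq (by fun_prop) (by fun_prop)).and
      (An.all fun i => (An.const _).or ?_))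
    exact U1.comp (f := fun q : (C × Y × Y) × (ℕ → Y) => (q.1.1, q.2 i, q.2 (i + 1))) (by fun_prop)
  have R1 := Ra.comp (f := fun p : (C × Y × Y) × C × Y × Y => (p.1.1, p.1.2.1, p.2.2.1))
    (by fun_prop)
  have R2 := Ra.comp (f := fun p : (C × Y × Y) × C × Y × Y => (p.1.1, p.2.2.1, p.1.2.1))
    (by fun_prop)
  have G1 := G_an.comp (f := fun p : (C × Y × Y) × C × Y × Y => (p.1.2.2, p.2.2.2)) (by fun_prop)
  refine ⟨C × Y × Y, inferInstance, inferInstance, inferInstance, inferInstance,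
    fun p q => p.1 = q.1 ∧ R p.1 p.2.1 q.2.1 ∧ G p.2.2 q.2.2,
    fun p q => p.1 = q.1 ∧ p.2.1 = q.2.1 ∧ G p.2.2 q.2.2,
    fun p q => p.1 = q.1 ∧ R p.1 p.2.1 q.2.1 ∧ R p.1 q.2.1 p.2.1 ∧ p.2.2 = q.2.2,
    ⟨fun _ => ⟨rfl, .refl, G_eqv.refl _⟩,
      fun _ _ _ h k => ⟨h.1.trans k.1, h.2.1.trans (h.1 ▸ k.2.1), G_eqv.trans h.2.2 k.2.2⟩,
      (An.eq (by fun_prop) (by fun_prop)).and (R1.and G1)⟩,
    ⟨⟨fun _ => ⟨rfl, rfl, G_eqv.refl _⟩, fun h => ⟨h.1.symm, h.2.1.symm, G_eqv.symm h.2.2⟩,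
      fun h k => ⟨h.1.trans k.1, h.2.1.trans k.2.1, G_eqv.trans h.2.2 k.2.2⟩⟩,
      (An.eq (by fun_prop) (by fun_prop)).and ((An.eq (by fun_prop) (by fun_prop)).and G1)⟩,
    ⟨⟨fun _ => ⟨rfl, .refl, .refl, rfl⟩, fun h => ⟨h.1.symm, h.1 ▸ h.2.2.1, h.1 ▸ h.2.1, h.2.2.2.symm⟩,
      fun h k => ⟨h.1.trans k.1, h.2.1.trans (h.1 ▸ k.2.1), .trans (h.1 ▸ k.2.2.1) h.2.2.1,
        h.2.2.2.trans k.2.2.2⟩⟩,
      (An.eq (by fun_prop) (by fun_prop)).and (R1.and (R2.and (An.eq (by fun_prop) (by fun_prop))))⟩,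
    fun _ _ h => ⟨⟨h.1, h.2.1 ▸ .refl, h.2.2⟩, h.1.symm, h.2.1 ▸ .refl, G_eqv.symm h.2.2⟩,
    fun _ _ h => ⟨⟨h.1, h.2.1, h.2.2.2 ▸ G_eqv.refl _⟩, h.1.symm, h.1 ▸ h.2.2.1,
      h.2.2.2 ▸ G_eqv.refl _⟩, ?_, ?_, ?_⟩
  · intro Z _ _ _ _ Q ⟨Q1, Q2, Q3⟩
    obtain ⟨e, he⟩ := emb Z
    obtain ⟨c, hc⟩ := U2 (fun p => ∃ a b, e a = p.1 ∧ e b = p.2 ∧ Q a b) (by
      rw [AnalyticSet] at Q3
      rcases Q3 with h | ⟨f, hf, h⟩
      · convert An.const (X := Y × Y) False using 2
        simpa using fun a _ b _ => by simpa using Set.ext_iff.1 h (a, b)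
      · have := MeasurableSet.univ.analyticSet_image
          ((he.measurable.prodMap he.measurable).comp hf.measurable)
        rw [image_univ, range_comp, h] at this
        unfold An
        convert this using 1
        ext p; simp [Prod.ext_iff]; tauto)
    have k : ∀ a x, R c (e a) x ↔ ∃ b, e b = x ∧ Q a b := fun a x => by
      refine ⟨fun h => ?_, fun ⟨b, h1, h2⟩ => .single ((hc _).2 ⟨a, b, rfl, h1, h2⟩)⟩
      induction h with
      | refl => exact ⟨a, rfl, Q1 a⟩
      | tail _ h ih =>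
        obtain ⟨b, rfl, h1⟩ := ih
        obtain ⟨a', b', h2, h3, h4⟩ := (hc _).1 h
        exact ⟨b', h3, Q2 _ _ _ h1 (he.injective h2 ▸ h4)⟩
    have k2 : ∀ a b, R c (e a) (e b) ↔ Q a b := fun a b =>
      (k a _).trans ⟨fun ⟨_, h1, h2⟩ => he.injective h1 ▸ h2, fun h => ⟨b, rfl, h⟩⟩
    let y0 : Y := fun _ _ => true
    refine ⟨{c} ×ˢ range e ×ˢ {y0}, (measurableSet_singleton _).prod
      (he.measurableSet_range.prod (measurableSet_singleton _)), ?_, ?_, ?_⟩
    · rintro ⟨_, _, _⟩ ⟨_, _, _⟩ ⟨rfl, h, -, rfl⟩ ⟨rfl, ⟨a, rfl⟩, rfl⟩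
      obtain ⟨b, hb, -⟩ := (k a _).1 h
      exact ⟨rfl, ⟨b, hb⟩, rfl⟩
    · refine ⟨fun p => he.equivRange.symm ⟨p.1.2.1, p.2.2.1⟩, he.equivRange.symm.measurable.comp
        (Measurable.subtype_mk (by fun_prop)), ?_⟩
      rintro ⟨⟨c1, x1, y1⟩, h1, ⟨a, h2⟩, h3⟩ ⟨⟨c2, x2, y2⟩, h4, ⟨b, h5⟩, h6⟩
      obtain rfl : c1 = c := h1
      obtain rfl : c2 = c1 := h4
      obtain rfl : e a = x1 := h2
      obtain rfl : e b = x2 := h5
      obtain rfl : y1 = y0 := h3
      obtain rfl : y2 = y0 := h6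
      simp [k2, G_eqv.refl]
    · exact ⟨fun a => ⟨(c, e a, y0), rfl, ⟨a, rfl⟩, rfl⟩, Measurable.subtype_mk
        (measurable_const.prodMk (he.measurable.prodMk measurable_const)),
        fun a b => by simp [k2, G_eqv.refl]⟩
  · obtain ⟨e, he⟩ := emb (C × Y)
    obtain ⟨c, hc⟩ := U2 _ G_an
    have k : ∀ a b, R c a b ↔ G a b := fun a b => by
      refine ⟨fun h => ?_, fun h => .single ((hc _).2 h)⟩
      induction h with
      | refl => exact G_eqv.refl _
      | tail _ h ih => exact G_eqv.trans ih ((hc _).1 h)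
    refine ⟨fun p => (c, p.2.2, e (p.1, p.2.1)), measurable_const.prodMk
      (measurable_snd.snd.prodMk (he.measurable.comp (by fun_prop))), fun p q => ?_⟩
    simp only [k, he.injective.eq_iff, Prod.mk.injEq, true_and]
    exact ⟨fun h => ⟨h.2.2, G_eqv.symm h.2.2, h.1, h.2.1⟩, fun h => ⟨h.2.2.1, h.2.2.2, h.1⟩⟩
  · intro h
    obtain ⟨B, h1, h2, ⟨f, -, h3⟩, g, -⟩ := h Unit (fun _ _ => True)
      ⟨fun _ => trivial, fun _ _ _ _ _ => trivial, An.const True⟩
    obtain ⟨⟨c, x, y⟩, hp⟩ := g ()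
    refine G_nb y ?_
    have : Measurable fun y' : Y => (c, x, y') := by fun_prop
    convert this h1 using 1
    ext y'
    exact ⟨fun k => h2 (c, x, y) _ ⟨rfl, rfl, k⟩ hp, fun k => ((h3 ⟨_, hp⟩ ⟨_, k⟩).2 trivial).2.2⟩

end Pool.Agent.Results.MP_930073_lc.Counterexample
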